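import Pool.Agent.Q85.FrobProj
import Mathlib.Analysis.SpecialFunctions.Pow.Real
import Mathlib.Topology.Connected.PathConnected
import Mathlib.Topology.Instances.Real.Lemmas

/-!
MP_e15572_ag: a constancy region of mixed test ideals which is not connected.

In `𝔽_p[x, y]` take `𝔞₁ = (x y³, x³)` and `𝔞₂ = (x y², x³ y)`. The constancy region of the ideal
`(x², x y, y²)` contains points with `t₁ < 1/2` and with `t₁ > 1/2` but no point with `t₁ = 1/2`.
-/

set_option autoImplicit false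

namespace Pool.Agent.Results.MP_e15572_ag.DisconnectedRegion

open MvPolynomial Pool.Agent.Q85.FrobProj

/-- The ideal `𝔟^[q]` generated by the `q`-th powers of the elements of `𝔟`. -/
def frobPow {R : Type} [CommRing R] (q : ℕ) (b : Ideal R) : Ideal R :=
  Ideal.span ((fun g => g ^ q) '' (b : Set R))

/-- The ideal `𝔟^[1/q]`: the smallest ideal `J` with `𝔟 ⊆ J^[q]`. -/
def frobRoot {R : Type} [CommRing R] (q : ℕ) (b : Ideal R) : Ideal R :=
  sInf {J | b ≤ frobPow q J}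

/-- The mixed test ideal `τ(𝔞₁^{t₁} ⋯ 𝔞ₙ^{tₙ})`, the union over all `e ≥ 0` of the ideals
`(𝔞₁^⌈t₁ p^e⌉ ⋯ 𝔞ₙ^⌈tₙ p^e⌉)^[1/p^e]`. -/
noncomputable def mixedTestIdeal {R : Type} [CommRing R] (p : ℕ) {n : ℕ} (a : Fin n → Ideal R)
    (t : Fin n → ℝ) : Ideal R :=
  ⨆ e : ℕ, frobRoot (p ^ e) (∏ i, a i ^ ⌈t i * (p : ℝ) ^ e⌉₊)

/-- The constancy region of `τ(𝔞₁^{c₁} ⋯ 𝔞ₙ^{cₙ})`. -/
def constancyRegion {R : Type} [CommRing R] (p : ℕ) {n : ℕ} (a : Fin n → Ideal R)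
    (c : Fin n → ℝ) : Set (Fin n → ℝ) :=
  {c' | (∀ i, 0 ≤ c' i) ∧ mixedTestIdeal p a c' = mixedTestIdeal p a c}

section

variable (p : ℕ) [hp : Fact p.Prime]

/-- `𝔞₁ = (x y³, x³)`, `𝔞₂ = (x y², x³ y)` -/
noncomputable def aa : Fin 2 → Ideal (MvPolynomial (Fin 2) (ZMod p)) :=
  ![Ideal.span {mono p 1 3, mono p 3 0}, Ideal.span {mono p 1 2, mono p 3 1}]

lemma mono_mul (A B A' B' : ℕ) : mono p A B * mono p A' B' = mono p (A + A') (B + B') := by
  rw [mono, mono, mono]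
  ring

lemma mono_pow (A B n : ℕ) : mono p A B ^ n = mono p (n * A) (n * B) := by
  rw [mono, mono, mul_pow, ← pow_mul, ← pow_mul, mul_comm A, mul_comm B]

lemma mem1 (A B N i : ℕ) (hi : i ≤ N) (h1 : 3 * N - 2 * i ≤ A) (h2 : 3 * i ≤ B) :
    mono p A B ∈ aa p 0 ^ N := by
  have h : mono p A B = mono p 1 3 ^ i * mono p 3 0 ^ (N - i) *
      mono p (A - (3 * N - 2 * i)) (B - 3 * i) := by
    rw [mono_pow, mono_pow, mono_mul, mono_mul]
    congr 1 <;> omega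
  rw [h]
  refine Ideal.mul_mem_right _ _ ?_
  have h3 : aa p 0 ^ N = aa p 0 ^ i * aa p 0 ^ (N - i) := by
    rw [← pow_add]
    congr 1
    omega
  rw [h3]
  exact Ideal.mul_mem_mul (Ideal.pow_mem_pow (Ideal.subset_span (by simp)) _)
    (Ideal.pow_mem_pow (Ideal.subset_span (by simp)) _)

lemma mem2 (A B M j : ℕ) (hj : j ≤ M) (h1 : 3 * M - 2 * j ≤ A) (h2 : M + j ≤ B) :
    mono p A B ∈ aa p 1 ^ M := by
  have h : mono p A B = mono p 1 2 ^ j * mono p 3 1 ^ (M - j) *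
      mono p (A - (3 * M - 2 * j)) (B - (M + j)) := by
    rw [mono_pow, mono_pow, mono_mul, mono_mul]
    congr 1 <;> omega
  rw [h]
  refine Ideal.mul_mem_right _ _ ?_
  have h3 : aa p 1 ^ M = aa p 1 ^ j * aa p 1 ^ (M - j) := by
    rw [← pow_add]
    congr 1
    omega
  rw [h3]
  exact Ideal.mul_mem_mul (Ideal.pow_mem_pow (Ideal.subset_span (by simp)) _)
    (Ideal.pow_mem_pow (Ideal.subset_span (by simp)) _)

lemma mem12 (A B N M i j : ℕ) (hi : i ≤ N) (hj : j ≤ M)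
    (h1 : (3 * N - 2 * i) + (3 * M - 2 * j) ≤ A) (h2 : 3 * i + (M + j) ≤ B) :
    mono p A B ∈ aa p 0 ^ N * aa p 1 ^ M := by
  have h : mono p A B = mono p (3 * N - 2 * i) (3 * i) *
      mono p (A - (3 * N - 2 * i)) (B - 3 * i) := by
    rw [mono_mul]
    congr 1 <;> omega
  rw [h]
  exact Ideal.mul_mem_mul (mem1 p _ _ N i hi le_rfl le_rfl)
    (mem2 p _ _ M j hj (by omega) (by omega))

/-- polynomials all of whose monomials have weight at least `n` -/
def wt (w₀ w₁ n : ℕ) : Ideal (MvPolynomial (Fin 2) (ZMod p)) where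
  carrier := {f | ∀ m ∈ f.support, n ≤ w₀ * m 0 + w₁ * m 1}
  add_mem' {f g} hf hg m hm := by
    rcases Finset.mem_union.mp (support_add hm) with h | h
    · exact hf m h
    · exact hg m h
  zero_mem' m hm := by simp at hm
  smul_mem' r f hf m hm := by
    rw [smul_eq_mul] at hm
    obtain ⟨a, ha, b, hb, rfl⟩ := Finset.mem_add.mp (support_mul _ _ hm)
    have := hf b hb
    simp only [Finsupp.add_apply, Nat.mul_add]
    omega

lemma wt_mul (w₀ w₁ n n' : ℕ) : wt p w₀ w₁ n * wt p w₀ w₁ n' ≤ wt p w₀ w₁ (n + n') := by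
  rw [Ideal.mul_le]
  intro f hf g hg m hm
  obtain ⟨a, ha, b, hb, rfl⟩ := Finset.mem_add.mp (support_mul _ _ hm)
  have h1 := hf a ha
  have h2 := hg b hb
  simp only [Finsupp.add_apply, Nat.mul_add]
  omega

lemma wt_pow (w₀ w₁ n k : ℕ) : wt p w₀ w₁ n ^ k ≤ wt p w₀ w₁ (k * n) := by
  induction k with
  | zero =>
    intro f _ m _
    omega
  | succ k ih =>
    rw [pow_succ, Nat.succ_mul]
    exact (Ideal.mul_mono_left ih).trans (wt_mul p _ _ _ _)

lemma mono_mem_wt (w₀ w₁ n A B : ℕ) (h : n ≤ w₀ * A + w₁ * B) : mono p A B ∈ wt p w₀ w₁ n := by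
  intro m hm
  rw [mono_eq] at hm
  have hm' := support_monomial_subset hm
  rw [Finset.mem_singleton] at hm'
  rw [hm']
  simpa using h

lemma le_wt (w₀ w₁ h₁ h₂ N M : ℕ) (h1 : h₁ ≤ w₀ + 3 * w₁) (h1' : h₁ ≤ 3 * w₀)
    (h2 : h₂ ≤ w₀ + 2 * w₁) (h2' : h₂ ≤ 3 * w₀ + w₁) :
    aa p 0 ^ N * aa p 1 ^ M ≤ wt p w₀ w₁ (N * h₁ + M * h₂) := by
  refine (Ideal.mul_mono (Ideal.pow_right_mono ?_ N) (Ideal.pow_right_mono ?_ M)).trans
    ((Ideal.mul_mono (wt_pow p w₀ w₁ h₁ N) (wt_pow p w₀ w₁ h₂ M)).trans (wt_mul p _ _ _ _))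
  · change Ideal.span {mono p 1 3, mono p 3 0} ≤ _
    rw [Ideal.span_le]
    rintro x (rfl | rfl)
    · exact mono_mem_wt p _ _ _ _ _ (by omega)
    · exact mono_mem_wt p _ _ _ _ _ (by omega)
  · change Ideal.span {mono p 1 2, mono p 3 1} ≤ _
    rw [Ideal.span_le]
    rintro x (rfl | rfl)
    · exact mono_mem_wt p _ _ _ _ _ (by omega)
    · exact mono_mem_wt p _ _ _ _ _ (by omega)

lemma mem_frobPow_of (q : ℕ) (J : Ideal (MvPolynomial (Fin 2) (ZMod p)))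
    (f : MvPolynomial (Fin 2) (ZMod p))
    (h : ∀ m ∈ f.support, ∃ u v, mono p u v ∈ J ∧ q * u ≤ m 0 ∧ q * v ≤ m 1) :
    f ∈ frobPow q J := by
  rw [f.as_sum]
  refine Ideal.sum_mem _ fun m hm => ?_
  obtain ⟨u, v, huv, h0, h1⟩ := h m hm
  have h2 : monomial m (coeff m f) =
      C (coeff m f) * mono p (m 0 - q * u) (m 1 - q * v) * mono p u v ^ q := by
    have h3 : m = Finsupp.single 0 (m 0 - q * u + q * u) +
        Finsupp.single 1 (m 1 - q * v + q * v) := by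
      rw [Nat.sub_add_cancel h0, Nat.sub_add_cancel h1]
      ext i
      fin_cases i <;> simp
    rw [mul_assoc, mono_pow, mono_mul, mono_eq, C_mul_monomial, mul_one, ← h3]
  rw [h2]
  exact Ideal.mul_mem_left _ _ (Ideal.subset_span ⟨_, huv, rfl⟩)

lemma prod_eq (t : Fin 2 → ℝ) (e : ℕ) : ∏ i, aa p i ^ ⌈t i * (p : ℝ) ^ e⌉₊ =
    aa p 0 ^ ⌈t 0 * (p : ℝ) ^ e⌉₊ * aa p 1 ^ ⌈t 1 * (p : ℝ) ^ e⌉₊ := by
  rw [Fin.prod_univ_two]

/-- upper bound criterion -/
lemma tau_le (t : Fin 2 → ℝ) (J : Ideal (MvPolynomial (Fin 2) (ZMod p)))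
    (h : ∀ e : ℕ, ∀ f ∈ aa p 0 ^ ⌈t 0 * (p : ℝ) ^ e⌉₊ * aa p 1 ^ ⌈t 1 * (p : ℝ) ^ e⌉₊,
      ∀ m ∈ f.support, ∃ u v, mono p u v ∈ J ∧ p ^ e * u ≤ m 0 ∧ p ^ e * v ≤ m 1) :
    mixedTestIdeal p (aa p) t ≤ J := by
  refine iSup_le fun e => sInf_le ?_
  change _ ≤ frobPow (p ^ e) J
  rw [prod_eq]
  exact fun f hf => mem_frobPow_of p _ _ _ (h e f hf)

/-- lower bound criterion -/
lemma mono_mem_tau (t : Fin 2 → ℝ) (u v e : ℕ)
    (h : mono p (p ^ e * (u + 1) - 1) (p ^ e * (v + 1) - 1) ∈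
      aa p 0 ^ ⌈t 0 * (p : ℝ) ^ e⌉₊ * aa p 1 ^ ⌈t 1 * (p : ℝ) ^ e⌉₊) :
    mono p u v ∈ mixedTestIdeal p (aa p) t := by
  refine (le_iSup (fun e : ℕ => frobRoot (p ^ e) (∏ i, aa p i ^ ⌈t i * (p : ℝ) ^ e⌉₊)) e) ?_
  change mono p u v ∈ sInf _
  rw [Submodule.mem_sInf]
  intro J hJ
  refine mono_mem_of_mem p e J u v ?_
  have hJ' : (∏ i, aa p i ^ ⌈t i * (p : ℝ) ^ e⌉₊) ≤ frobPow (p ^ e) J := hJ
  rw [prod_eq] at hJ'
  exact hJ' h

lemma exists_large (K : ℝ) : ∃ e : ℕ, K ≤ (p : ℝ) ^ e := by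
  obtain ⟨e, he⟩ := pow_unbounded_of_one_lt K (show (1 : ℝ) < p by exact_mod_cast hp.out.one_lt)
  exact ⟨e, he.le⟩

/-- `𝔪² = (x², x y, y²)` -/
noncomputable def msq : Ideal (MvPolynomial (Fin 2) (ZMod p)) :=
  Ideal.span {mono p 2 0, mono p 1 1, mono p 0 2}

lemma ceil_bounds (r : ℝ) (hr : 0 ≤ r) : r ≤ (⌈r⌉₊ : ℝ) ∧ (⌈r⌉₊ : ℝ) ≤ r + 1 :=
  ⟨Nat.le_ceil r, (Nat.ceil_lt_add_one hr).le⟩

/-- `τ` at `(19/20, 0)` -/
lemma tau1 : mixedTestIdeal p (aa p) ![19 / 20, 0] = msq p := by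
  apply le_antisymm
  · refine tau_le p _ _ fun e f hf m hm => ?_
    simp only [Matrix.cons_val_zero, Matrix.cons_val_one, zero_mul, Nat.ceil_zero] at hf
    have hw := le_wt p 3 2 9 7 _ _ (by norm_num) (by norm_num) (by norm_num) (by norm_num) hf m hm
    have hN := (ceil_bounds (19 / 20 * (p : ℝ) ^ e) (by positivity)).1
    set N := ⌈(19 / 20 * (p : ℝ) ^ e)⌉₊ with hNdef
    have hq : (1 : ℝ) ≤ (p : ℝ) ^ e := by
      exact_mod_cast (Nat.one_le_pow _ _ hp.out.pos : 1 ≤ p ^ e)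
    have hw' : 19 * p ^ e ≤ 20 * N := by
      have : (19 : ℝ) * (p : ℝ) ^ e ≤ 20 * N := by linarith
      exact_mod_cast this
    have hq1 : 1 ≤ p ^ e := Nat.one_le_pow _ _ hp.out.pos
    generalize p ^ e = q at *
    by_cases h0 : 2 * q ≤ m 0
    · exact ⟨2, 0, Ideal.subset_span (by simp), by omega, by omega⟩
    by_cases h1 : 2 * q ≤ m 1
    · exact ⟨0, 2, Ideal.subset_span (by simp), by omega, by omega⟩
    exact ⟨1, 1, Ideal.subset_span (by simp), by omega, by omega⟩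
  · obtain ⟨e, he⟩ := exists_large p 100
    have hN := (ceil_bounds (19 / 20 * (p : ℝ) ^ e) (by positivity)).2
    have hN1 := (ceil_bounds (19 / 20 * (p : ℝ) ^ e) (by positivity)).1
    have key : ∀ u v i : ℕ, i ≤ ⌈19 / 20 * (p : ℝ) ^ e⌉₊ →
        3 * ⌈19 / 20 * (p : ℝ) ^ e⌉₊ - 2 * i ≤ p ^ e * (u + 1) - 1 →
        3 * i ≤ p ^ e * (v + 1) - 1 → mono p u v ∈ mixedTestIdeal p (aa p) ![19 / 20, 0] := by
      intro u v i hi h1 h2
      refine mono_mem_tau p _ u v e ?_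
      simp only [Matrix.cons_val_zero, Matrix.cons_val_one, zero_mul, Nat.ceil_zero]
      exact mem12 p _ _ _ 0 i 0 hi le_rfl (by omega) (by omega)
    set N := ⌈(19 / 20 * (p : ℝ) ^ e)⌉₊ with hNdef
    have hq : 100 ≤ p ^ e := by exact_mod_cast he
    have hw' : 20 * N ≤ 19 * p ^ e + 20 := by
      have : (20 : ℝ) * N ≤ 19 * (p : ℝ) ^ e + 20 := by linarith
      exact_mod_cast this
    have hw'' : 19 * p ^ e ≤ 20 * N := by
      have : 19 * (p : ℝ) ^ e ≤ (20 : ℝ) * N := by linarith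
      exact_mod_cast this
    clear_value N
    rw [msq, Ideal.span_le]
    rintro x (rfl | rfl | rfl)
    · exact key 2 0 0 (by omega) (by omega) (by omega)
    · exact key 1 1 ((2 * p ^ e - 1) / 3) (by omega) (by omega) (by omega)
    · exact key 0 2 N (by omega) (by omega) (by omega)

/-- `τ` at `(1/5, 3/4)` -/
lemma tau2 : mixedTestIdeal p (aa p) ![1 / 5, 3 / 4] = msq p := by
  apply le_antisymm
  · refine tau_le p _ _ fun e f hf m hm => ?_
    simp only [Matrix.cons_val_zero, Matrix.cons_val_one] at hf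
    have hw1 := le_wt p 3 2 9 7 _ _ (by norm_num) (by norm_num) (by norm_num) (by norm_num)
      hf m hm
    have hw2 := le_wt p 1 2 3 5 _ _ (by norm_num) (by norm_num) (by norm_num) (by norm_num)
      hf m hm
    have hN := (ceil_bounds (1 / 5 * (p : ℝ) ^ e) (by positivity)).1
    have hM := (ceil_bounds (3 / 4 * (p : ℝ) ^ e) (by positivity)).1
    set N := ⌈(1 / 5 * (p : ℝ) ^ e)⌉₊ with hNdef
    set M := ⌈(3 / 4 * (p : ℝ) ^ e)⌉₊ with hMdef
    have hN' : p ^ e ≤ 5 * N := by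
      have : (p : ℝ) ^ e ≤ 5 * N := by linarith
      exact_mod_cast this
    have hM' : 3 * p ^ e ≤ 4 * M := by
      have : 3 * (p : ℝ) ^ e ≤ 4 * M := by linarith
      exact_mod_cast this
    have hq1 : 1 ≤ p ^ e := Nat.one_le_pow _ _ hp.out.pos
    clear_value N M
    by_cases h0 : 2 * p ^ e ≤ m 0
    · exact ⟨2, 0, Ideal.subset_span (by simp), by omega, by omega⟩
    by_cases h1 : 2 * p ^ e ≤ m 1
    · exact ⟨0, 2, Ideal.subset_span (by simp), by omega, by omega⟩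
    exact ⟨1, 1, Ideal.subset_span (by simp), by omega, by omega⟩
  · obtain ⟨e, he⟩ := exists_large p 100
    have hN := (ceil_bounds (1 / 5 * (p : ℝ) ^ e) (by positivity)).2
    have hM := (ceil_bounds (3 / 4 * (p : ℝ) ^ e) (by positivity)).2
    have key : ∀ u v i j : ℕ, i ≤ ⌈1 / 5 * (p : ℝ) ^ e⌉₊ → j ≤ ⌈3 / 4 * (p : ℝ) ^ e⌉₊ →
        (3 * ⌈1 / 5 * (p : ℝ) ^ e⌉₊ - 2 * i) + (3 * ⌈3 / 4 * (p : ℝ) ^ e⌉₊ - 2 * j) ≤
          p ^ e * (u + 1) - 1 →
        3 * i + (⌈3 / 4 * (p : ℝ) ^ e⌉₊ + j) ≤ p ^ e * (v + 1) - 1 →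
        mono p u v ∈ mixedTestIdeal p (aa p) ![1 / 5, 3 / 4] := by
      intro u v i j hi hj h1 h2
      refine mono_mem_tau p _ u v e ?_
      simp only [Matrix.cons_val_zero, Matrix.cons_val_one]
      exact mem12 p _ _ _ _ i j hi hj h1 h2
    set N := ⌈(1 / 5 * (p : ℝ) ^ e)⌉₊ with hNdef
    set M := ⌈(3 / 4 * (p : ℝ) ^ e)⌉₊ with hMdef
    have hq : 100 ≤ p ^ e := by exact_mod_cast he
    have hN' : 5 * N ≤ p ^ e + 5 := by
      have : (5 : ℝ) * N ≤ (p : ℝ) ^ e + 5 := by linarith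
      exact_mod_cast this
    have hM' : 4 * M ≤ 3 * p ^ e + 4 := by
      have : (4 : ℝ) * M ≤ 3 * (p : ℝ) ^ e + 4 := by linarith
      exact_mod_cast this
    clear_value N M
    rw [msq, Ideal.span_le]
    rintro x (rfl | rfl | rfl)
    · exact key 2 0 0 0 (by omega) (by omega) (by omega) (by omega)
    · exact key 1 1 0 M (by omega) (by omega) (by omega) (by omega)
    · exact key 0 2 N M (by omega) (by omega) (by omega) (by omega)

lemma msq_le : msq p ≤ wt p 1 1 2 := by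
  rw [msq, Ideal.span_le]
  rintro x (rfl | rfl | rfl)
  · exact mono_mem_wt p _ _ _ _ _ (by omega)
  · exact mono_mem_wt p _ _ _ _ _ (by omega)
  · exact mono_mem_wt p _ _ _ _ _ (by omega)

lemma of_mono_mem_wt (w₀ w₁ n A B : ℕ) (h : mono p A B ∈ wt p w₀ w₁ n) :
    n ≤ w₀ * A + w₁ * B := by
  have h1 := h (Finsupp.single 0 A + Finsupp.single 1 B) (by
    rw [mono_eq, mem_support_iff, coeff_monomial, if_pos rfl]
    exact one_ne_zero)
  simpa using h1

/-- on the line `t₁ = 1/2` the test ideal is never `𝔪²` -/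
lemma tau_half (t : Fin 2 → ℝ) (h0 : t 0 = 1 / 2) (h1 : 0 ≤ t 1) :
    mixedTestIdeal p (aa p) t ≠ msq p := by
  intro h
  by_cases ht : 1 / 2 ≤ t 1
  · have h2 : mixedTestIdeal p (aa p) t ≤ wt p 1 0 1 := by
      refine tau_le p _ _ fun e f hf m hm => ⟨1, 0, mono_mem_wt p _ _ _ _ _ (by omega), ?_,
        by omega⟩
      have hw := le_wt p 1 0 1 1 _ _ (by norm_num) (by norm_num) (by norm_num) (by norm_num)
        hf m hm
      have hpe : (0 : ℝ) ≤ (p : ℝ) ^ e := by positivity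
      have hN := (ceil_bounds (t 0 * (p : ℝ) ^ e) (by rw [h0]; positivity)).1
      have hM := (ceil_bounds (t 1 * (p : ℝ) ^ e) (by positivity)).1
      set N := ⌈(t 0 * (p : ℝ) ^ e)⌉₊ with hNdef
      set M := ⌈(t 1 * (p : ℝ) ^ e)⌉₊ with hMdef
      have hNM : p ^ e ≤ N + M := by
        have : (p : ℝ) ^ e ≤ N + M := by
          have := mul_le_mul_of_nonneg_right ht hpe
          rw [h0] at hN
          linarith
        exact_mod_cast this
      omega
    have h3 : mono p 0 2 ∈ wt p 1 0 1 := by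
      apply h2
      rw [h]
      exact Ideal.subset_span (by simp)
    have := of_mono_mem_wt p _ _ _ _ _ h3
    omega
  · rw [not_le] at ht
    obtain ⟨e, he⟩ := exists_large p (10 / (1 / 2 - t 1))
    have hd : 0 < 1 / 2 - t 1 := by linarith
    rw [div_le_iff₀ hd] at he
    have hpe : (0 : ℝ) ≤ (p : ℝ) ^ e := by positivity
    have hN := (ceil_bounds (t 0 * (p : ℝ) ^ e) (by rw [h0]; positivity)).2
    have hM := (ceil_bounds (t 1 * (p : ℝ) ^ e) (by positivity)).2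
    have h3 : mono p 1 0 ∈ mixedTestIdeal p (aa p) t := by
      refine mono_mem_tau p _ 1 0 e ?_
      set N := ⌈(t 0 * (p : ℝ) ^ e)⌉₊ with hNdef
      set M := ⌈(t 1 * (p : ℝ) ^ e)⌉₊ with hMdef
      rw [h0] at hN
      have e1 : 3 * N + M ≤ 2 * p ^ e - 1 := by
        have : (3 : ℝ) * N + M + 1 ≤ 2 * (p : ℝ) ^ e := by linarith
        have : 3 * N + M + 1 ≤ 2 * p ^ e := by exact_mod_cast this
        omega
      have e2 : 2 * M ≤ p ^ e - 1 := by
        have : (2 : ℝ) * M + 1 ≤ (p : ℝ) ^ e := by linarith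
        have : 2 * M + 1 ≤ p ^ e := by exact_mod_cast this
        omega
      clear_value N M
      exact mem12 p _ _ _ _ 0 M (by omega) (by omega) (by omega) (by omega)
    rw [h] at h3
    have := of_mono_mem_wt p _ _ _ _ _ (msq_le p h3)
    omega

end

/-- For every prime `p` there are two ideals of `𝔽_p[x, y]` one of whose constancy regions is not
connected (hence not path-connected). -/
theorem result (p : ℕ) [Fact p.Prime] :
    ∃ (a : Fin 2 → Ideal (MvPolynomial (Fin 2) (ZMod p))) (c : Fin 2 → ℝ), (∀ i, 0 ≤ c i) ∧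
      ¬ IsPreconnected (constancyRegion p a c) ∧ ¬ IsPathConnected (constancyRegion p a c) := by
  suffices h : (∀ i, 0 ≤ (![19 / 20, 0] : Fin 2 → ℝ) i) ∧
      ¬ IsPreconnected (constancyRegion p (aa p) ![19 / 20, 0]) from
    ⟨aa p, ![19 / 20, 0], h.1, h.2, fun hc => h.2 hc.isConnected.isPreconnected⟩
  refine ⟨?_, fun hc => ?_⟩
  · intro i
    fin_cases i
    · simp
      norm_num
    · simp
  · have h1 : ![19 / 20, 0] ∈ constancyRegion p (aa p) ![19 / 20, 0] := by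
      refine ⟨fun i => ?_, rfl⟩
      fin_cases i
      · simp
        norm_num
      · simp
    have h2 : ![1 / 5, 3 / 4] ∈ constancyRegion p (aa p) ![19 / 20, 0] := by
      refine ⟨fun i => ?_, ?_⟩
      · fin_cases i
        · simp
        · simp
          norm_num
      · rw [tau1, tau2]
    have h3 := (hc.image (fun t : Fin 2 → ℝ => t 0) (continuous_apply 0).continuousOn).Icc_subset
      (Set.mem_image_of_mem _ h2) (Set.mem_image_of_mem _ h1)
    have h4 : (1 / 2 : ℝ) ∈ Set.Icc ((![1 / 5, 3 / 4] : Fin 2 → ℝ) 0)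
        ((![19 / 20, 0] : Fin 2 → ℝ) 0) := by
      constructor
      · simp
        norm_num
      · simp
        norm_num
    obtain ⟨t, ⟨ht, ht'⟩, ht0⟩ := h3 h4
    rw [tau1] at ht'
    exact tau_half p t ht0 (ht 1) ht'

end Pool.Agent.Results.MP_e15572_ag.DisconnectedRegion
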